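import Pool.Agent.P.MP_e76ef6_pr.Bad

open scoped Classical

namespace Pool.Agent.Results.MP_e76ef6_pr.ShortLists

open Pool.Agent.P.MP_e76ef6_pr in
theorem result :
    ∀ k : ℕ, 3 ≤ k → ∀ U : (n : ℕ) → Finset (Fin n),
      Filter.Tendsto (fun n : ℕ => (U n).card) Filter.atTop Filter.atTop →
      Filter.Tendsto (fun n : ℕ => ((U n).card : ℝ) / (n : ℝ)) Filter.atTop (nhds 0) →
      ∃ c : ℕ → ℝ, ∀ ε : ℝ, 0 < ε →
      Filter.Tendsto (fun n : ℕ => ∑ G : SimpleGraph (Fin n),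
        if (¬ ∀ L : Fin n → Finset ℕ, (∀ v, (if v ∈ U n then k - 1 else k) ≤ (L v).card) →
              ∃ f : Fin n → ℕ, (∀ v, f v ∈ L v) ∧ ∀ u v, G.Adj u v → f u ≠ f v)
        then (max 0 (min 1 ((c n - ε) / (n : ℝ)))) ^ (Nat.card G.edgeSet) *
             (1 - max 0 (min 1 ((c n - ε) / (n : ℝ)))) ^ (n.choose 2 - Nat.card G.edgeSet)
        else 0) Filter.atTop (nhds 0) ∧
      Filter.Tendsto (fun n : ℕ => ∑ G : SimpleGraph (Fin n),
        if (¬ ∀ L : Fin n → Finset ℕ, (∀ v, (if v ∈ U n then k - 1 else k) ≤ (L v).card) →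
              ∃ f : Fin n → ℕ, (∀ v, f v ∈ L v) ∧ ∀ u v, G.Adj u v → f u ≠ f v)
        then (max 0 (min 1 ((c n + ε) / (n : ℝ)))) ^ (Nat.card G.edgeSet) *
             (1 - max 0 (min 1 ((c n + ε) / (n : ℝ)))) ^ (n.choose 2 - Nat.card G.edgeSet)
        else 0) Filter.atTop (nhds 1) := by
  intro k hk U hU1 hU2
  have hk' : (3 : ℝ) ≤ k := by exact_mod_cast hk
  obtain ⟨c, hc⟩ := sharp (fun n => Bad k {fun _ _ => (id : ℕ → ℕ)})
    (fun n => sys_bad hk fun τ hτ u v a b _ h => by rw [hτ] at h ⊢; exact h.symm) U hU2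
    (short_seed hk U hU1) (fun n ⟨τ, _, L, hL, h⟩ => h ⟨fun v => (Finset.card_pos.1
      (lt_of_lt_of_le (by split_ifs <;> omega) (hL v))).choose, fun v => Exists.choose_spec _,
      by simp⟩) (C := 4 * k ^ 2 * (k + 1)) (by positivity) (by
      filter_upwards [first_moment k (by omega), (tendsto_const_div_atTop_nhds_zero_nat
        (4 * k ^ 2 * (k + 1) : ℝ)).eventually (ge_mem_nhds one_pos)] with n h h1
      have := Ex_mono (E := EE n) (by positivity) h1 (f := fun _ => 1)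
        (g := fun x => ind (Bad k {fun _ _ => (id : ℕ → ℕ)} (U n) x) +
          ind (∃ c : Fin n → Fin k, ∀ u v, u ≠ v → s(u, v) ∈ x → c u ≠ c v)) fun x _ => by
        by_cases hb : Bad k {fun _ _ => (id : ℕ → ℕ)} (U n) x
        · rw [ind_pos hb]; linarith [ind_nonneg
            (∃ c : Fin n → Fin k, ∀ u v, u ≠ v → s(u, v) ∈ x → c u ≠ c v)]
        · rw [ind_neg hb, zero_add]
          refine (ind_pos ?_).ge
          by_contra hn
          refine hb ⟨_, rfl, fun _ => Finset.range k, fun v => by simp; split_ifs <;> omega,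
            fun ⟨φ, h1, h2⟩ => hn ⟨fun v => ⟨φ v, Finset.mem_range.1 (h1 v)⟩,
              fun u v huv hs e => h2 u v huv hs (Fin.mk.inj e).symm⟩⟩
      rw [Ex_const, Ex_add] at this
      unfold mu
      linarith)
  have e : ∀ (n : ℕ) (p : ℝ), (∑ G : SimpleGraph (Fin n),
      if (¬ ∀ L : Fin n → Finset ℕ, (∀ v, (if v ∈ U n then k - 1 else k) ≤ (L v).card) →
            ∃ f : Fin n → ℕ, (∀ v, f v ∈ L v) ∧ ∀ u v, G.Adj u v → f u ≠ f v)
      then p ^ (Nat.card G.edgeSet) * (1 - p) ^ (n.choose 2 - Nat.card G.edgeSet)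
      else 0) = mu (Bad k {fun _ _ => (id : ℕ → ℕ)}) (U n) p := by
    intro n p
    refine Eq.trans (by convert sum_graphs n p _) (Ex_congr fun x _ => congrArg ind (propext ?_))
    simp only [SimpleGraph.fromEdgeSet_adj, Finset.mem_coe, not_forall]
    constructor
    · rintro ⟨L, hL, h⟩
      exact ⟨_, rfl, L, hL, fun ⟨φ, h1, h2⟩ => h ⟨φ, h1, fun u v h => (h2 u v h.2 h.1).symm⟩⟩
    · rintro ⟨τ, hτ, L, hL, h⟩
      rw [hτ] at h
      exact ⟨L, hL, fun ⟨φ, h1, h2⟩ => h ⟨φ, h1, fun u v a b => (h2 u v ⟨b, a⟩).symm⟩⟩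
  refine ⟨c, fun ε hε => ?_⟩
  simp only [e]
  exact hc ε hε

end Pool.Agent.Results.MP_e76ef6_pr.ShortLists
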